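import Pool.Agent.DC.FinalG

/-!
# Tilted approximation of curves over perfectoid fields of characteristic zero

`K` is a field of characteristic zero, with a valuation ring `O` of rank one (`hrank`) which is
`p`-adically complete, where `p` is not a unit in `O`, such that the valuation is not discrete
(`hdense`) and the Frobenius map of `O / p` is surjective (`hfrob`): that is, `K` is a perfectoid
field of mixed characteristic `(0, p)`. For every closed subscheme `X ⊂ ℙ^n_K` of dimension one
(smooth or not), given by a homogeneous ideal `I` such that the dimension of the homogeneous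
coordinate ring is two, the property asked for in the question holds.
-/

set_option autoImplicit false

noncomputable section

namespace Pool.Agent.Results.MP_db3ab1_ag.Curves

open MvPolynomial Pool.Agent.LibDb3ab1

universe u

theorem result {p : ℕ} [Fact p.Prime] {K : Type u} [Field K] [CharZero K]
    (O : ValuationSubring K) [Fact ¬IsUnit (p : O)] [IsAdicComplete (Ideal.span {(p : O)}) O]
    (hrank : ∀ x : O, ¬IsUnit x → ∃ k : ℕ, (p : O) ∣ x ^ k)
    (hdense : ∃ x : O, ¬IsUnit x ∧ ¬(p : O) ∣ x)
    (hfrob : Function.Surjective (frobenius (ModP O p) p))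
    {n : ℕ} (I : Ideal (MvPolynomial (Fin (n + 1)) K))
    (hI : ∀ P ∈ I, ∀ k, homogeneousComponent k P ∈ I)
    (hdim : ringKrullDim (MvPolynomial (Fin (n + 1)) K ⧸ I) = 2) :
    TiltApprox p O I := by
  have hp0 : (p : O) ≠ 0 := by
    intro h
    have h1 := congrArg O.subtype h
    rw [map_natCast, map_zero] at h1
    exact (Nat.cast_ne_zero.mpr (Fact.out : p.Prime).ne_zero) h1
  obtain ⟨ϖ, u, hu, hϖ⟩ := exists_varpi hp0 hrank hdense hfrob
  exact Pool.Agent.DC.curves_all (b := ⟨ϖ, u, hu, hϖ,
    Nat.cast_ne_zero.mpr (Fact.out : p.Prime).ne_zero, hrank, hfrob⟩) I hI hdim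

end Pool.Agent.Results.MP_db3ab1_ag.Curves
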