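import Pool.Agent.GFR.Core

/-!
# Disproof of the global algebraic approximation of tilted preimages

`K` is a field of characteristic zero with a valuation ring `O` of rank one (`hrank`) which is
`p`-adically complete, where `p` is a prime number which is not a unit in `O`; for instance any
perfectoid field of characteristic zero, algebraically closed or not. There are a smooth,
geometrically integral closed subscheme `X ⊂ ℙ^n_K` of dimension three, given by a homogeneous ideal
`I`, and an open neighbourhood `U` of `X^ad` in `(ℙ^n_K)^ad`, such that no closed subscheme `Y` of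
the projective space over the tilt of `K`, given by any homogeneous ideal `𝔓`, with
`dim Y = dim X`, satisfies `Y^ad ⊆ π⁻¹(U)`.
-/

set_option autoImplicit false

noncomputable section

namespace Pool.Agent.Results.MP_db3ab1_ag.Disproof

open MvPolynomial Pool.Agent.LibDb3ab1 Pool.Agent.GFR

theorem result (p : ℕ) [Fact p.Prime] (K : Type) [Field K] [CharZero K] (O : ValuationSubring K)
    [Fact ¬IsUnit (p : O)] [IsAdicComplete (Ideal.span {(p : O)}) O]
    (hrank : ∀ x : O, ¬IsUnit x → ∃ k : ℕ, (p : O) ∣ x ^ k) :
    ∃ (n : ℕ) (I : Ideal (MvPolynomial (Fin (n + 1)) K)), SmoothVar 3 I ∧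
      ∃ U : Set (AdicProj O n), IsOpen U ∧ adicLocus O I ⊆ U ∧
        ∀ 𝔓 : Ideal (MvPolynomial (Fin (n + 1)) (FractionRing (PreTilt O p))),
          (∀ F ∈ 𝔓, ∀ m, homogeneousComponent m F ∈ 𝔓) →
          ringKrullDim (MvPolynomial (Fin (n + 1)) (FractionRing (PreTilt O p)) ⧸ 𝔓) =
            ringKrullDim (MvPolynomial (Fin (n + 1)) K ⧸ I) →
          ¬TiltInside p O 𝔓 U := by
  obtain ⟨hI, U, hU, hIU, h⟩ := disproof_of_core p (fun J _ E hE => coreP p J E hE) K O hrank
  exact ⟨_, _, hI, U, hU, hIU, h⟩

end Pool.Agent.Results.MP_db3ab1_ag.Disproof
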