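import Pool.Agent.CSM.Final

/-!
# Tilted approximation of varieties with a self-map whose reduction factors through Frobenius

`K` is a perfectoid field of characteristic zero, `O` its valuation ring, which is `p`-adically
complete, of rank one (`hrank`), not discrete (`hdense`), and the Frobenius map of `O / p` is
surjective (`hfrob`). The forms `f j` over `O` define a closed subscheme of `ℙ^n_O` with
homogeneous coordinate ring `O[x]/(f)` torsion free over `O` (`hflat`), with reduced reduction
(`hred`); `X` is its generic fibre, of dimension `d` (`hdim`). The forms `φ i`, of the same degree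
`q > 0`, map this subscheme to itself (`hself`), without common zero on the special fibre
(`hbase`), and the reduction of `φ` factors through the Frobenius map of the special fibre
(`hfact`). Then the property asked for in the question holds for `X`.
-/

set_option autoImplicit false

noncomputable section

namespace Pool.Agent.Results.MP_db3ab1_ag.FrobeniusSelfMaps

open MvPolynomial Pool.Agent.LibDb3ab1

universe u

theorem result {p : ℕ} [Fact p.Prime] {K : Type u} [Field K] [CharZero K]
    (O : ValuationSubring K) [Fact ¬IsUnit (p : O)] [IsAdicComplete (Ideal.span {(p : O)}) O]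
    (hrank : ∀ x : O, ¬IsUnit x → ∃ k : ℕ, (p : O) ∣ x ^ k)
    (hdense : ∃ x : O, ¬IsUnit x ∧ ¬(p : O) ∣ x)
    (hfrob : Function.Surjective (frobenius (ModP O p) p))
    {n d : ℕ} {J : Type} [Finite J] (f : J → MvPolynomial (Fin (n + 1)) O) (df : J → ℕ)
    (hf : ∀ j, (f j).IsHomogeneous (df j))
    (hdim : ringKrullDim (MvPolynomial (Fin (n + 1)) K ⧸
      Ideal.span (Set.range fun j => map O.subtype (f j))) = (d + 1 : ℕ))
    (hflat : ∀ (a : O) (F : MvPolynomial (Fin (n + 1)) O), a ≠ 0 →
      C a * F ∈ Ideal.span (Set.range f) → F ∈ Ideal.span (Set.range f))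
    (hred : (Ideal.span (Set.range fun j =>
      map (IsLocalRing.residue O) (f j))).IsRadical)
    {q : ℕ} (hq : 0 < q) (φ : Fin (n + 1) → MvPolynomial (Fin (n + 1)) O)
    (hφ : ∀ i, (φ i).IsHomogeneous q)
    (hself : ∀ j, bind₁ φ (f j) ∈ Ideal.span (Set.range f))
    (hbase : ∀ z : Fin (n + 1) → AlgebraicClosure (IsLocalRing.ResidueField O),
      (∀ j, aeval z (map (IsLocalRing.residue O) (f j)) = 0) →
      (∀ i, aeval z (map (IsLocalRing.residue O) (φ i)) = 0) → z = 0)
    (hfact : ∀ i, ∃ ψ : MvPolynomial (Fin (n + 1)) (IsLocalRing.ResidueField O),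
      map (IsLocalRing.residue O) (φ i) - expand p ψ ∈
        Ideal.span (Set.range fun j => map (IsLocalRing.residue O) (f j))) :
    TiltApprox p O (Ideal.span (Set.range fun j => map O.subtype (f j))) := by
  have hp0 : (p : O) ≠ 0 := by
    intro h
    have h1 := congrArg O.subtype h
    rw [map_natCast, map_zero] at h1
    exact (Nat.cast_ne_zero.mpr (Fact.out : p.Prime).ne_zero) h1
  obtain ⟨ϖ, u, hu, hϖ⟩ := exists_varpi hp0 hrank hdense hfrob
  exact Pool.Agent.CSM.frobenius_factor (b := ⟨ϖ, u, hu, hϖ,
    Nat.cast_ne_zero.mpr (Fact.out : p.Prime).ne_zero, hrank, hfrob⟩) hq f df hf φ hφ hflat hred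
    hself hbase hfact hdim

end Pool.Agent.Results.MP_db3ab1_ag.FrobeniusSelfMaps
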