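import Pool.Agent.DC.FinalF2

/-!
# Tilted approximation of complete intersections over products of curves

`K` is a perfectoid field of characteristic zero with ring of integers `O` and residue
characteristic `p`: `O` is a valuation ring of rank one (`hrank`), `p`-adically complete, its value
group is not discrete (`hdense`), and the Frobenius is surjective on `O / p` (`hfrob`).

The structure `Base` describes a tower of weighted projective bundles (projectivisations of sums
of line bundles) over a product of closed subschemes `X_i` of projective spaces, `i ∈ cst`, which are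
arbitrary curves, or varieties with a self-map whose reduction factors through the Frobenius map
(`FrobModel`, for instance abelian varieties with good reduction), or totally degenerate abelian
varieties (`ThetaImage`). The tower has `s` multiplicative
group actions, or gradings; `W i v` is the degree of the variable `v ∈ τ` for the `i`-th grading.
In this tower `P` the forms `F j` define a closed subscheme `Z`, on which the forms
`φ 0, ..., φ n`, all of multidegree `e`, have no common zero. The scheme `X ⊂ ℙ^n` is that of the
homogeneous ideal `I`, it is of dimension `d ≥ 2`, and `φ(Z) ⊂ X` (`MemZ F z` says that `z` gives a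
point of `Z`). There are `dim P - d` forms `F j`, and their multidegrees together with `d` copies of
`e` satisfy the condition `Positive`; for a product of the `X_i` and of projective spaces this holds
exactly when the intersection number of the multidegrees is not zero.

Under these hypotheses the property asked for in the question holds for `X`.
-/

set_option autoImplicit false

noncomputable section

namespace Pool.Agent.Results.MP_db3ab1_ag.OverCurves

open MvPolynomial Pool.Agent.LibDb3ab1 Pool.Agent.DC

universe u

theorem result {p : ℕ} [Fact p.Prime] {K : Type u} [Field K] [CharZero K]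
    (O : ValuationSubring K) [Fact ¬IsUnit (p : O)] [IsAdicComplete (Ideal.span {(p : O)}) O]
    (hrank : ∀ x : O, ¬IsUnit x → ∃ k : ℕ, (p : O) ∣ x ^ k)
    (hdense : ∃ x : O, ¬IsUnit x ∧ ¬(p : O) ∣ x)
    (hfrob : Function.Surjective (frobenius (ModP O p) p))
    {s n d : ℕ} (_hd : 2 ≤ d) {τ : Type} [Finite τ] (B : Base O p s τ)
    {J : Type} (F : J → MvPolynomial τ K) {D : J → Fin s → ℕ} (hF : ∀ j, MH B.W (F j) (D j))
    (φ : Fin (n + 1) → MvPolynomial τ K) {e : Fin s → ℕ} (hφ : ∀ l, MH B.W (φ l) e)
    (he : 0 < ∑ i, e i) (hpos : B.Positive D e d)
    (hno : ∀ z, B.MemZ F z → ∃ l, aeval z (φ l) ≠ 0)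
    (I : Ideal (MvPolynomial (Fin (n + 1)) K))
    (_hI : ∀ P ∈ I, ∀ k, homogeneousComponent k P ∈ I)
    (hX : ∀ z, B.MemZ F z → ∀ P ∈ I, aeval (fun l => aeval z (φ l)) P = 0)
    (hdim : ringKrullDim (MvPolynomial (Fin (n + 1)) K ⧸ I) = (d + 1 : ℕ)) :
    TiltApprox p O I := by
  have hp0 : (p : O) ≠ 0 := by
    intro h
    have h1 := congrArg O.subtype h
    rw [map_natCast, map_zero] at h1
    exact (Nat.cast_ne_zero.mpr (Fact.out : p.Prime).ne_zero) h1
  obtain ⟨ϖ, u, hu, hϖ⟩ := exists_varpi hp0 hrank hdense hfrob
  exact over_curves ⟨ϖ, u, hu, hϖ, Nat.cast_ne_zero.mpr (Fact.out : p.Prime).ne_zero, hrank, hfrob⟩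
    hdense B F hF φ hφ he hpos hno I hX hdim

end Pool.Agent.Results.MP_db3ab1_ag.OverCurves
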